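import Pool.Agent.J6H17.RF.All
import Pool.Agent.J6H49.ES.World

/-!
# Oracles far from a collapse relative to which proofs of finite reflection can be constructed

The statement of the question implies `P ≠ NP`. We show that for relativizing proofs there is no
converse, even approximately: there are oracles relative to which some language in `coNP` has no
interactive proof, in a strong sense, and nevertheless the statement of the question is false: there is a
consistent theory `S` such that for every consistent theory `T` the proofs in `S` of the sentences of
finite reflection for `T` can be constructed in polynomial time.

The relativized notions are explained in `Pool.Agent.Results.MP_9649a7_lc.RandomOracle` and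
`Pool.Agent.J6H17.RF.Defs`, `Pool.Agent.J6H17.RF.DefsN`.

The proof. Relative to these oracles all nonempty problems in polynomial space have `p`-optimal proof
systems. Let `W` be the set of all triples of a formula `Pr` and numbers `n`, `m` in unary for which
all sentences `Pr (e, u, x, z) → μ (e, x, z)` with arguments of length at most `n` have proofs in `B`
of length at most `m`, and let `P` be a `p`-optimal proof system for `W`. The axioms of `S` are those of
`B` and `x_c = x_c → RFN`, where `c` is the number of a proof `w` for which `P w` belongs to the
reflection sentence `RFN`.
-/

set_option autoImplicit false

namespace Pool.Agent.Results.MP_9649a7_lc.FarFromCollapse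

open MeasureTheory Pool.Agent.NPC Pool.Agent.H628R3.RO Pool.Agent.J6H49.OP Pool.Agent.J6H49.IP
open Pool.Agent.TH678.GC (join)
open Pool.Agent.J6H17.RF

/-- Let `C` be any oracle. There is a map `O` on the oracles such that

* for every `A`, `O A` contains `A` and `C`, and relative to `O A`, for every base theory `B` with
  universal formula `μ` there is a consistent theory `S ⊇ B` such that for every consistent theory
  `T ⊇ B` proofs in `S` of the finite reflection sentences can be constructed in polynomial time,
* for a random oracle `A` (fair coin tosses), with probability one, there is a language `L` in `coNP`
  relative to `O A` such that for every set `T` of subexponential density, `L` has no interactive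
  proof relative to `O A` and `T` which is correct for infinitely many input lengths. -/
theorem result (C : Oracle) : ∃ O : Oracle → Oracle,
    (∀ A, Contains (O A) A ∧ Contains (O A) C ∧ NegQuestion (O A)) ∧
    ∀ᵐ A ∂randomOracle, ∃ L : Set (List Bool), IsCoNP (O A) L ∧
      ∀ T : Oracle, SubexpDense T → ¬ IsIPio (join (O A) T) L := by
  obtain ⟨O, h1, h2⟩ := Pool.Agent.J6H49.ES.world (fun n => 2 ^ n)
    (fun k => by
      obtain ⟨N, hN⟩ := Pool.Agent.J6H54.RO.poly_le_two_pow (Polynomial.X ^ k)
      filter_upwards [Filter.eventually_ge_atTop N] with n hn
      have h := hN n hn
      simp only [Polynomial.eval_pow, Polynomial.eval_X] at h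
      omega) C
  exact ⟨O, fun A => ⟨(h1 A).2.1, (h1 A).2.2.1, all_finN (O A) fun L hL hne =>
    (h1 A).2.2.2.pOptimal hL hne⟩, h2⟩

end Pool.Agent.Results.MP_9649a7_lc.FarFromCollapse
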