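import Pool.Agent.J6H50.RF.All
import Pool.Agent.J6H50.RF.Pairs

/-!
# Finite uniform `Σ^b_1`-reflection and p-optimal proof systems for sets in `Π_2^P`

Let `Q1` be the statement of the problem: for every theory `S` in the class (`S^1_2` with a consistent
polynomial-time decidable set of additional axioms) there is a theory `T` in the class such that
`S`-proofs of the sentences `Σ^b_1RFN_T (n)` cannot be constructed in polynomial time in `n`.

Theorem.
(1) Some `coNP`-hard set has a p-optimal proof system if and only if the class of the sets with p-optimal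
    proof systems is closed under polynomially bounded universal quantification.
(2) For all `k`: some `Σ_k^P`-hard set and some `coNP`-hard set have p-optimal proof systems if and only if
    all nonempty sets in `Π_(k+1)^P` have p-optimal proof systems. (For `k = 1` the first statement is
    that `SAT` and `TAUT` have p-optimal proof systems, the second one is about `Π_2^P`.)
(3) If all nonempty sets in `Π_2^P` have p-optimal proof systems, then there is a complete disjoint
    `Σ_2^P` pair.
(4) `Q1` implies that some nonempty set in `Π_2^P` has no p-optimal proof system, and that some tally set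
    in `Σ_2^P` is not in `P`.
(5) Given the implications listed in the problem file (if `SAT`, or `TAUT`, has no p-optimal proof system
    then `Q1`), `Q1` is equivalent to the non-existence of a p-optimal proof system for some nonempty
    set in `Π_2^P`, and follows from the non-existence of a complete disjoint `Σ_2^P` pair.

This is for every universal formula `μ` and for every formalisation `Prov` of the proof predicates (in
`Q1` the formalisation may depend on `T`; this is the weakest form of `Q1`).

Proof of (1). Let `h` be p-optimal for `A`, `g` p-optimal for the `coNP`-hard set `B`, and `L` the set of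
the `x` with `f (x, y) ∈ A` for all `y` with `|y| ≤ p (|x|)`. A proof of `x ∈ L` is a list `(e, w, s, π)`,
where `e` is a program which for every `y` finds in `|s|` steps on the input `(w, y)` an `h`-proof of
`f (x, y) ∈ A`, and `π` is a `g`-proof of this `coNP` fact. Let `Q` be a proof system for `L`. Since
`f (Q (w), y) ∈ A`, the p-optimality of `h` gives a program `e` which finds `h`-proofs of these facts from
`(w, y)`, and the p-optimality of `g` gives a polynomial-time function which finds `π` from `w`.

Proof of (4). Suppose that the nonempty sets in `Π_2^P` have p-optimal proof systems (or that all tally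
sets in `Σ_2^P` are in `P`). Let `S` be the theory with the additional axioms
`pad → (ind → (hyp → Σ^b_1RFN (n)))`, where the formula `pad` contains the code of a list
`w = (Prov, j, e, p, n, t, π)`, the sentence `hyp` says that `e` is the index of the formula `Prov`
(for the polynomial `p`), `t ≥ p (4 n + 9)`, and `π` is a proof of the fact `Cond μ e n t` that all
`a, x, z, u < 2 ^ n` which satisfy the formula with the index `e` satisfy `μ (a, x, z)`; this fact is
a `Π_2^P` property of `e`, `n`, `t`. These axioms are true in `ℕ`, and they are decidable in polynomial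
time. If `T` is in the class, then `Cond μ e n t` is true for the index `e` of its proof predicate and
all `n`, since the true bounded sentences are provable in `S^1_2`. By p-optimality, proofs `π` of these
facts can be constructed in polynomial time, and `Σ^b_1RFN_T (n)` follows from the axiom by modus ponens,
as `hyp` is provable in `S^1_2` by the universality of `μ`.
-/

set_option autoImplicit false

namespace Pool.Agent.Results.MP_9649a7_lc.NoPOptimalPiTwo

open Pool.Agent.NPC Pool.Agent.J6H50.RF

theorem result :
    -- (1)
    ((∃ B h, CoNPHard B ∧ POptimal B h) ↔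
      ∀ (A L : Set (List Bool)) (f : List Bool → List Bool) (p : Polynomial ℕ),
        (∃ h, POptimal A h) → PolyTime f →
        (∀ x, x ∈ L ↔ ∀ y : List Bool, y.length ≤ p.eval x.length → f (pairBits x y) ∈ A) →
        L.Nonempty → ∃ h, POptimal L h) ∧
    -- (2)
    (∀ k, ((∃ A h, SigmaHard k A ∧ POptimal A h) ∧ ∃ B h, CoNPHard B ∧ POptimal B h) ↔
      ∀ L, PiP (k + 1) L → L.Nonempty → ∃ h, POptimal L h) ∧
    -- (3)
    ((∀ L, PiP 2 L → L.Nonempty → ∃ h, POptimal L h) → ∃ A B, CompletePair A B) ∧
    ∀ μ : Fm, Univ μ →
      -- (4)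
      (Q1 μ → (∃ L, PiP 2 L ∧ L.Nonempty ∧ ¬ ∃ h, POptimal L h) ∧
        ∃ L, Tally L ∧ SigmaP 2 L ∧ ¬ InP L) ∧
      -- (5)
      ∀ A B, NPHard A → CoNPHard B → ((¬ ∃ h, POptimal A h) → Q1 μ) →
        ((¬ ∃ h, POptimal B h) → Q1 μ) →
        (Q1 μ ↔ ∃ L, PiP 2 L ∧ L.Nonempty ∧ ¬ ∃ h, POptimal L h) ∧
        ((¬ ∃ A' B', CompletePair A' B') → Q1 μ) := by
  have h4 : ∀ μ : Fm, Univ μ → Q1 μ → (∃ L, PiP 2 L ∧ L.Nonempty ∧ ¬ ∃ h, POptimal L h) ∧
      ∃ L, Tally L ∧ SigmaP 2 L ∧ ¬ InP L := by
    intro μ hμ hQ
    obtain ⟨L, hL, hne, hno⟩ := main2 μ hμ hQ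
    obtain ⟨_, L', hT, hS, hP⟩ := main μ hμ hQ
    exact ⟨⟨L, (PP.pi2_iff L).1 hL, hne, hno⟩, L', hT, (PP.sigma2_iff L').1 hS, hP⟩
  refine ⟨PP.closure_iff, PP.levels, PP.complete_pair, fun μ hμ => ⟨h4 μ hμ, ?_⟩⟩
  intro A B hA hB h1 h2
  have key : ¬ Q1 μ → ∀ L, PiP 2 L → L.Nonempty → ∃ h, POptimal L h := by
    intro hQ
    obtain ⟨g1, hg1⟩ : ∃ h, POptimal A h := by
      by_contra h
      exact hQ (h1 h)
    obtain ⟨g2, hg2⟩ : ∃ h, POptimal B h := by
      by_contra h
      exact hQ (h2 h)
    exact (PP.levels 1).1 ⟨⟨A, g1, fun L hL => hA L (PP.inNP_of_sigma hL), hg1⟩, ⟨B, g2, hB, hg2⟩⟩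
  refine ⟨⟨fun hQ => (h4 μ hμ hQ).1, fun h => ?_⟩, fun h => ?_⟩
  · by_contra hQ
    obtain ⟨L, hL, hne, hno⟩ := h
    exact hno (key hQ L hL hne)
  · by_contra hQ
    exact h (PP.complete_pair (key hQ))

end Pool.Agent.Results.MP_9649a7_lc.NoPOptimalPiTwo
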