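import Pool.Agent.J6H17.RF.All
import Pool.Agent.J6H54.RO.FinS

/-!
# Finite reflection and polynomial-time proof construction relative to a random oracle

The question is whether for every consistent theory `S` of bounded arithmetic there is such a theory
`T` for which proofs in `S` of the finite `Σ₁ᵇ` reflection sentences of `T` for the lengths `n` cannot
be constructed in polynomial time in `n`. We show that the answer is positive relative to a random
oracle `A`.

**The relativized notions.** The language has a predicate symbol for the oracle. A theory relative to
`A` is a set of axioms (in a Hilbert calculus; the logical axioms are among the axioms) that is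
decidable in polynomial time relative to `A`. `Base A B μ`: `B` is a consistent theory, and the formula
`μ (e, x, z)` is universal for `NP` relative to `A`: every sentence `μ (e, x, z)` is provable or
refutable in `B` and for every `L` in `NP` relative to `A` there are `e` and a polynomial `p` such that,
if `|z| ≥ p (|x|)`, then `x ∈ L` if and only if `μ (e, x, z)` is provable; moreover `B`-proofs of the
true sentences `|a| ≤ n` can be constructed in time polynomial in `|a| + n`, and the proof predicate
of every theory has a formalization in `B`, that is a formula `Pr (e, u, x, z)` for which proofs in `B`
of the sentences `Pr (e, u, x, z)`, where `u` is a proof of `μ (e, x, z)`, can be constructed in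
polynomial time, and whose other instances are refuted in `B`. (These are the properties of the
theory `S¹₂` with the oracle predicate and the true sentences `A (n)`, `¬ A (n)`, of the universal
`Σ₁ᵇ` formula `μ₁` and of the `Δ₁ᵇ` formalizations of proof predicates.)

**The proof.** If for some `S ⊇ B` all theories `T ⊇ B` have polynomial-time constructible `S`-proofs
of their finite reflection sentences, then the function which maps a pair of `v = (e, x, z)` and a
proof of `μ (e, x, z)` in `S` to `v` is a `p`-optimal proof system for the set of all `v` for which
`μ v` is true, which is `NP`-hard: for another proof system `g` consider the theory `T` which has,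
besides the axioms of `B`, the axioms `x_c = x_c → μ (g w)`, where `c` is the number of the string `w`.
Relative to a random oracle there are no `p`-optimal proof systems for `NP`-hard sets.
-/

set_option autoImplicit false

namespace Pool.Agent.Results.MP_9649a7_lc.RandomOracle

open MeasureTheory Pool.Agent.NPC Pool.Agent.H628R3.RO
open Pool.Agent.J6H17.RF

/-- For almost all oracles `A` (fair coin tosses): for every base theory `B` with universal formula `μ`
and every consistent theory `S ⊇ B` relative to `A` there is a consistent theory `T ⊇ B` relative to
`A`, with the same theorems as `B`, such that for every formalization `Pr` of the proofs in `T` of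
sentences `μ (e, x, z)`, proofs in `S` of the sentences `∀ e, u, x, z, |e|, |u|, |x|, |z| ≤ n →
Pr (e, u, x, z) → μ (e, x, z)` cannot be constructed in polynomial time in `n` relative to `A`. -/
theorem result : ∀ᵐ A ∂randomOracle, ∀ (B : Set Fm) (μ : Fm), Base A B μ →
    ∀ S : Set Fm, Theory A S → B ⊆ S → Consistent S →
      ∃ T : Set Fm, Theory A T ∧ B ⊆ T ∧ Consistent T ∧ (∀ φ, Proves T φ ↔ Proves B φ) ∧
        ∀ Pr : Fm, Formalizes A B μ T Pr → ¬ Constructible A S Pr μ := by
  filter_upwards [Pool.Agent.J6H54.RO.final_S] with A hA
  exact all_fin A fun L P hL => hA L hL P

end Pool.Agent.Results.MP_9649a7_lc.RandomOracle
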