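import Pool.Agent.J6H17.RF.All
import Pool.Agent.J6H49.KW.POpt

/-!
# Short proofs of finite reflection that cannot be constructed: an oracle with `UP = PSPACE`

If `NP = coNP` then some theory `S` has, for every theory `T`, proofs of polynomial length of the
finite reflection sentences of `T`. We show that relative to some oracles with `UP = PSPACE` (so
`NP = coNP`), relative to which moreover polynomial space is nearly polynomial time and has a
Turing-hard tally set of arbitrarily low density, proofs of these sentences nevertheless cannot be
constructed in polynomial time. The relativized notions are explained in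
`Pool.Agent.Results.MP_9649a7_lc.RandomOracle` and `Pool.Agent.J6H17.RF.Defs`.
-/

set_option autoImplicit false

namespace Pool.Agent.Results.MP_9649a7_lc.UPEqualsPSPACE

open Filter Pool.Agent.NPC Pool.Agent.H628R3.RO Pool.Agent.J6H49.OP Pool.Agent.J6H49.IP
open Pool.Agent.H620R2.Gauge (IsPSPACE)
open Pool.Agent.TH678.GC (join)
open Pool.Agent.J6H49.KW (tally)
open Pool.Agent.J6H17.RF

/-- Let `α` and `f` be nondecreasing and unbounded and let `C` be any oracle. There are an oracle `O`
which contains `C` and a tally set `T` such that

* `O` is nearly collapsed with the function `α`,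
* relative to `O`, every language in polynomial space is in `UP` and in `coUP`, and it is in `P` if
  `T` is added to the oracle,
* `T` has at most `f n` elements of length at most `n`,
* relative to `O`, the question has a positive answer. -/
theorem result (α f : ℕ → ℕ) (hα : Monotone α) (hα' : Tendsto α atTop atTop)
    (hf : Monotone f) (hf' : Tendsto f atTop atTop) (C : Oracle) :
    ∃ (O : Oracle) (T : ℕ → Bool), NearlyCollapsed α O ∧ Contains O C ∧
      (∀ L, IsPSPACE O L → IsUP O L ∧ IsUP O Lᶜ ∧ IsP (join O (tally T)) L) ∧
      (∀ n, ((Finset.range (n + 1)).filter fun m => T m = true).card ≤ f n) ∧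
      Question O := by
  obtain ⟨en, hen⟩ := Pool.Agent.J6H49.KW.exists_algs
  obtain ⟨O, T, X, hW⟩ := Pool.Agent.J6H49.KW.engine hα hα' hf hf' C (I := Set.univ)
    (Filter.Frequently.of_forall fun n => Set.mem_univ n)
    (t := fun a b => Pool.Agent.J6H49.KW.tPO (en a) (en b))
    fun a b => Pool.Agent.J6H49.KW.isTest_PO (en a) (en b)
  refine ⟨O, T, hW.near, hW.cont, fun L hL => ⟨(hW.up L hL).1, (hW.up L hL).2, hW.hard L hL⟩,
    hW.dens, all_fin O fun L P hL hP => hW.no_pOptimal hen (hW.nonempty hen) hL ⟨P, hP⟩⟩

end Pool.Agent.Results.MP_9649a7_lc.UPEqualsPSPACE
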